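import Pool.Agent.MWA.StmtsP

/-!
# Block MWA, row D2Q
-/

set_option autoImplicit false

namespace Pool.Agent.MWA.H36Q

open Pool.Agent.Helper14_MV Pool.Agent.Helper2_MV Pool.Agent.MVO Pool.Agent.MWL Pool.Agent.MWS

theorem blkOk_r2 {k : ℕ} {U : ℕ → List ℕ} (hU : BlkOk k U) (x y : ℕ) : BlkOk k (r2 x y U) := by
  intro j hj c hc
  exact hU j hj c (List.mem_filter.1 hc).1

theorem rr_r2 (θ : FIC) (k : ℕ) (U V : ℕ → List ℕ) (hU : BlkOk k U) (hV : BlkOk k V) (x y : ℕ)
    (h : RR θ (asm k U) (asm k V)) : RR θ (asm k (r2 x y U)) (asm k (r2 x y V)) := by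
  have aux : ∀ W : ℕ → List ℕ, BlkOk k W →
      (asm k W).filter (fun c => decide (c = x ∨ c = y) || decide (2 ≤ c ∧ c ≤ k + 1)) =
        asm k (r2 x y W) := by
    intro W hW
    rw [asm_filter (fun c => decide (c = x ∨ c = y) || decide (2 ≤ c ∧ c ≤ k + 1)) (by
      intro c h1 h2
      rw [decide_eq_true (p := 2 ≤ c ∧ c ≤ k + 1) ⟨h1, h2⟩, Bool.or_true])]
    refine asm_congr (fun j hj => ?_)
    unfold r2
    refine List.filter_congr (fun c hc => ?_)
    have h1 : ¬ (2 ≤ c ∧ c ≤ k + 1) := hW j hj c hc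
    rw [decide_eq_false h1, Bool.or_false]
  have h1 := h.filter (fun c => decide (c = x ∨ c = y) || decide (2 ≤ c ∧ c ≤ k + 1))
  rw [aux U hU, aux V hV] at h1
  exact h1

theorem mem_gb {n : ℕ → ℕ} {D : List ℕ} {c : ℕ} (h : c ∈ gb n D) : c ∈ D := by
  unfold gb at h
  obtain ⟨d, hd, hc⟩ := List.mem_flatMap.1 h
  rw [(List.mem_replicate.1 hc).2]
  exact hd

theorem blkOk_gb {k : ℕ} {X : List ℕ} (hX : ∀ c ∈ X, NS k c) (n : ℕ → ℕ → ℕ) (D : ℕ → List ℕ)
    (hD : ∀ j, (D j).Perm X) : BlkOk k (fun j => gb (n j) (D j)) := by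
  intro j _ c hc
  exact hX c ((hD j).mem_iff.1 (mem_gb hc))

theorem d2q (hONE : MVO.OneStmt) (hTYQ : TyqStmt) (hORQ : OrqStmt) : D2qStmt := by
  intro β hC hR hP θ hle hnc k B B' hB hB' H
  have h1 : ∀ x, NS k x → L1 θ k (ty B x) (ty B' x) := by
    intro x hx
    have hy : NS k (k + 2 + x) := fun h => by
      have := h.2
      omega
    have h2 := hONE.1 θ k (r2 x (k + 2 + x) B) (r2 x (k + 2 + x) B') x hx
      (blkOk_r2 hB.ok _ _) (blkOk_r2 hB'.ok _ _) (H x (k + 2 + x) hx hy (by omega))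
    have e : ∀ W : ℕ → List ℕ, (fun j => (r2 x (k + 2 + x) W j).count x) = ty W x := by
      intro W
      funext j
      unfold r2 ty
      rw [List.count_filter]
      exact decide_eq_true (Or.inl rfl)
    rw [e B, e B'] at h2
    exact h2
  obtain ⟨X, D, D', G, hD', e1, e2⟩ := hTYQ β hC hP θ hle hnc k B B' hB hB' h1
  have k1 : BlkOk k (fun j => gb (fun c => (B' j).count c) (D j)) :=
    blkOk_gb G.ns (fun j c => (B' j).count c) D G.perm
  have k2 : BlkOk k (fun j => gb (fun c => (B' j).count c) (D' j)) :=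
    blkOk_gb G.ns (fun j c => (B' j).count c) D' hD'
  have h3 : RR θ (gw k (fun j c => (B' j).count c) D) (gw k (fun j c => (B' j).count c) D') := by
    refine hORQ β hC hR θ hle k X (fun j c => (B' j).count c) D D' G hD' ?_
    intro x hx y hy hxy
    have s1 := rr_r2 θ k _ _ k1 hB.ok x y e1.symm
    have s2 := H x y (G.ns x hx) (G.ns y hy) hxy
    have s3 := rr_r2 θ k _ _ hB'.ok k2 x y e2
    exact θ.trans s1 (θ.trans s2 s3)
  exact θ.trans e1 (θ.trans h3 e2.symm)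

end Pool.Agent.MWA.H36Q
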